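import Mathlib
import Pool.Agent.Work.MP_461429_co.Defs
import Pool.Agent.Work.MP_461429_co.Counting

/-!
# MP_461429_co, Q1: a negative answer

For every `m ≥ 74` there is an `m`-directional blocking order of convex figures which is not
isomorphic to the blocking order of any family of pairwise disjoint closed line segments, with
whatever number of directions of motion.
-/

namespace Pool.Agent.Results.MP_461429_co.NoSegments

open Pool.Agent.Work.MP_461429_co

/-- For every `m ≥ 74` there is a finite family `F` of pairwise disjoint compact convex figures
with nonempty interior, with exactly `m` directions of motion and an acyclic blocking relation,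
whose blocking order is not isomorphic to the blocking order of any family of pairwise disjoint
closed line segments, with any number of directions of motion. -/
theorem result (m : ℕ) (hm : 74 ≤ m) :
    ∃ (ι : Type) (_ : Fintype ι) (F : Family ι), F.Acyclic ∧ F.directionCount = m ∧
      (∀ X, (interior (F.body X)).Nonempty) ∧
      ∀ (κ : Type) (G : Family κ), G.IsSegmentFamily →
        IsEmpty (F.BlockingOrder ≃r G.BlockingOrder) := by
  obtain ⟨M, rfl⟩ : ∃ M, m = M + 1 := ⟨m - 1, by omega⟩
  exact exists_family M (by omega)

end Pool.Agent.Results.MP_461429_co.NoSegments
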